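import Mathlib
import Pool.Agent.H47R4.Apps

set_option autoImplicit false

namespace Pool.Agent.Results.MP_0e3417_nt.MultiplesFinite

open Finset

/-- `A` is a solution: a finite set of at least two positive integers with reciprocal sum `1` -/
def Sol (A : Finset ℕ) : Prop := 2 ≤ A.card ∧ (∀ a ∈ A, 0 < a) ∧
  (∑ n ∈ A, (1 : ℚ) / (n : ℚ)) = 1

/-- There are only finitely many solutions `A` for which there is an integer `d ≥ 2` such that all
elements of `A` are divisible by `d` and consecutive elements of `A` differ by at most `2 d`. -/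
theorem result : {A : Finset ℕ | Sol A ∧ ∃ d : ℕ, 2 ≤ d ∧ (∀ a ∈ A, d ∣ a) ∧
    ∀ x ∈ A, ∀ y ∈ A, x < y → (∀ z ∈ A, ¬ (x < z ∧ z < y)) → y - x ≤ 2 * d}.Finite := by
  obtain ⟨N0, hN0⟩ := Pool.Agent.H47R4.finite_two
  apply ((Finset.range (N0 * N0 + 1)).powerset.finite_toSet).subset
  rintro A ⟨⟨-, hA, hsum⟩, d, hd, hdiv, hgap⟩
  rw [Finset.mem_coe, Finset.mem_powerset]
  have hd0 : 0 < d := by omega
  set B := A.image (fun a => a / d) with hB
  have hBpos : ∀ b ∈ B, 0 < b := by
    intro b hb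
    rw [hB, Finset.mem_image] at hb
    obtain ⟨a, ha, rfl⟩ := hb
    exact Nat.div_pos (Nat.le_of_dvd (hA a ha) (hdiv a ha)) hd0
  have hBsum : (∑ n ∈ B, (1 : ℚ) / (n : ℚ)) = d := by
    rw [hB, Finset.sum_image]
    · have e : ∀ a ∈ A, (1 : ℚ) / ((a / d : ℕ) : ℚ) = d * ((1 : ℚ) / a) := by
        intro a ha
        obtain ⟨c, hc⟩ := hdiv a ha
        have ha0 := hA a ha
        have hc0 : c ≠ 0 := by
          rintro rfl
          omega
        have hcq : (c : ℚ) ≠ 0 := by exact_mod_cast hc0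
        have hdq : (d : ℚ) ≠ 0 := by exact_mod_cast hd0.ne'
        rw [hc, Nat.mul_div_cancel_left _ hd0]
        push_cast
        field_simp
      rw [Finset.sum_congr rfl e, ← Finset.mul_sum, hsum, mul_one]
    · intro a ha b hb hab
      have := congrArg (fun x => x * d) hab
      simp only at this
      rwa [Nat.div_mul_cancel (hdiv a ha), Nat.div_mul_cancel (hdiv b hb)] at this
  have hBgap : Pool.Agent.H47R4.Gap2 B := by
    intro x hx y hy hxy hno
    rw [hB, Finset.mem_image] at hx hy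
    obtain ⟨a, ha, rfl⟩ := hx
    obtain ⟨b, hb, rfl⟩ := hy
    obtain ⟨a', rfl⟩ := hdiv a ha
    obtain ⟨b', rfl⟩ := hdiv b hb
    rw [Nat.mul_div_cancel_left _ hd0, Nat.mul_div_cancel_left _ hd0] at hno hxy ⊢
    have h1 := hgap (d * a') ha (d * b') hb (Nat.mul_lt_mul_of_pos_left hxy hd0) (by
      rintro z hz ⟨h2, h3⟩
      obtain ⟨z', rfl⟩ := hdiv z hz
      apply hno z' (by
        rw [hB, Finset.mem_image]
        exact ⟨d * z', hz, Nat.mul_div_cancel_left _ hd0⟩)
      exact ⟨Nat.lt_of_mul_lt_mul_left h2, Nat.lt_of_mul_lt_mul_left h3⟩)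
    rw [← Nat.mul_sub, mul_comm 2 d] at h1
    exact Nat.le_of_mul_le_mul_left h1 hd0
  have hlt := hN0 B d hd hBpos hBsum hBgap
  -- `d ≤ N0`
  have hdN : d ≤ N0 := by
    have h1 : (∑ n ∈ B, (1 : ℚ) / (n : ℚ)) ≤ B.card • (1 : ℚ) := by
      apply Finset.sum_le_card_nsmul
      intro n hn
      have h2 : (1 : ℚ) ≤ n := by exact_mod_cast hBpos n hn
      rw [div_le_one (by linarith)]
      exact h2
    rw [hBsum, nsmul_eq_mul, mul_one] at h1
    have h3 : d ≤ B.card := by exact_mod_cast h1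
    have h4 : B ⊆ Finset.range N0 := fun b hb => Finset.mem_range.2 (hlt b hb)
    have h5 := Finset.card_le_card h4
    rw [Finset.card_range] at h5
    omega
  intro a ha
  rw [Finset.mem_range]
  have h6 := hlt (a / d) (by rw [hB]; exact Finset.mem_image_of_mem _ ha)
  have h7 := Nat.div_mul_cancel (hdiv a ha)
  have h8 : a / d * d ≤ N0 * N0 := Nat.mul_le_mul h6.le hdN
  omega

end Pool.Agent.Results.MP_0e3417_nt.MultiplesFinite
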