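import Mathlib
import Pool.Agent.H47R4.Dens

set_option autoImplicit false

namespace Pool.Agent.Results.MP_0e3417_nt.MultiplesLogDensity

open Finset Filter Topology

/-- `A` is a solution (a finite set of at least two positive integers with reciprocal sum `1`) all of
whose elements are divisible by `d` and all of whose gaps are at most `2 d` -/
def Sol (d : ℕ) (A : Finset ℕ) : Prop := 2 ≤ A.card ∧ (∀ a ∈ A, 0 < a) ∧
  (∑ n ∈ A, (1 : ℚ) / (n : ℚ)) = 1 ∧ (∀ a ∈ A, d ∣ a) ∧
  ∀ x ∈ A, ∀ y ∈ A, x < y → ∃ z ∈ A, x < z ∧ z ≤ x + 2 * d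

/-- the largest denominators of these solutions -/
def Bad (d : ℕ) : Set ℕ := {N | ∃ A : Finset ℕ, Sol d A ∧ N ∈ A ∧ ∀ a ∈ A, a ≤ N}

theorem bad_isMax {d : ℕ} (hd : 1 ≤ d) {N : ℕ} (h : N ∈ Bad d) :
    d ∣ N ∧ Pool.Agent.H47R4.IsMax (N / d) := by
  obtain ⟨A, ⟨-, h1, h2, h3, h4⟩, h5, h6⟩ := h
  have hd0 : 0 < d := hd
  refine ⟨h3 N h5, d, hd, A.image (fun a => a / d), ?_, ?_, ?_, ?_, ?_⟩
  · intro a ha
    rw [Finset.mem_image] at ha
    obtain ⟨b, hb, rfl⟩ := ha
    exact Nat.div_pos (Nat.le_of_dvd (h1 b hb) (h3 b hb)) hd0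
  · rw [Finset.sum_image]
    · have hdq : (d : ℚ) ≠ 0 := by exact_mod_cast hd0.ne'
      have e : ∀ a ∈ A, (1 : ℚ) / ((a / d : ℕ) : ℚ) = d * ((1 : ℚ) / a) := by
        intro a ha
        obtain ⟨c, hc⟩ := h3 a ha
        have ha0 := h1 a ha
        have hc0 : c ≠ 0 := by
          rintro rfl
          omega
        have hcq : (c : ℚ) ≠ 0 := by exact_mod_cast hc0
        rw [hc, Nat.mul_div_cancel_left _ hd0]
        push_cast
        field_simp
      rw [Finset.sum_congr rfl e, ← Finset.mul_sum, h2, mul_one]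
    · intro a ha b hb hab
      have := congrArg (fun x => x * d) hab
      simp only at this
      rwa [Nat.div_mul_cancel (h3 a ha), Nat.div_mul_cancel (h3 b hb)] at this
  · intro x hx y hy hxy hno
    rw [Finset.mem_image] at hx hy
    obtain ⟨a, ha, rfl⟩ := hx
    obtain ⟨b, hb, rfl⟩ := hy
    have hab : a < b := by
      by_contra hcon
      exact absurd hxy (not_lt.2 (Nat.div_le_div_right (not_lt.1 hcon)))
    obtain ⟨z, hz, h7, h8⟩ := h4 a ha b hb hab
    obtain ⟨a', rfl⟩ := h3 a ha
    obtain ⟨b', rfl⟩ := h3 b hb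
    obtain ⟨z', rfl⟩ := h3 z hz
    have h9 := hno z' (Finset.mem_image.2 ⟨d * z', hz, Nat.mul_div_cancel_left _ hd0⟩)
    rw [Nat.mul_div_cancel_left _ hd0, Nat.mul_div_cancel_left _ hd0] at h9 hxy ⊢
    have h10 : a' < z' := Nat.lt_of_mul_lt_mul_left h7
    have h11 : z' ≤ a' + 2 := by
      have : d * z' ≤ d * (a' + 2) := by
        calc d * z' ≤ d * a' + 2 * d := h8
          _ = _ := by ring
      exact Nat.le_of_mul_le_mul_left this hd0
    have h12 : b' ≤ z' := by
      by_contra hcon
      exact h9 ⟨h10, not_le.1 hcon⟩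
    omega
  · exact Finset.mem_image_of_mem _ h5
  · intro a ha
    rw [Finset.mem_image] at ha
    obtain ⟨b, hb, rfl⟩ := ha
    exact Nat.div_le_div_right (h6 b hb)

open Classical in
/-- For a positive integer `d` let `Bad d` be the set of the largest denominators of the solutions all
of whose elements are divisible by `d` and all of whose gaps are at most `2 d` (for `d = 1`: all
solutions with gaps at most `2`).
(1) For every `C` there is `X₀` such that for all `d ≥ 1` and `X ≥ X₀ d` the window `[X, C X]` does not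
contain twelve elements of `Bad d` each of which is at least sixteen times the previous one.
(2) For every `d ≥ 1` the set `Bad d` has logarithmic density zero. -/
theorem result :
    (∀ C : ℝ, ∃ X₀ : ℝ, ∀ d : ℕ, 1 ≤ d → ∀ X : ℝ, X₀ * d ≤ X → ¬ ∃ f : ℕ → ℕ,
      (∀ s, s < 12 → f s ∈ Bad d ∧ X ≤ f s ∧ (f s : ℝ) ≤ C * X) ∧
      ∀ s, s + 1 < 12 → 16 * f s ≤ f (s + 1)) ∧
    (∀ d : ℕ, 1 ≤ d →
      Tendsto (fun x : ℕ => (∑ N ∈ (Finset.Icc 1 x).filter (fun N => N ∈ Bad d), (1 : ℝ) / N) /
        Real.log x) atTop (𝓝 0)) := by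
  refine ⟨fun C => ?_, fun d hd => ?_⟩
  · obtain ⟨X₀, -, h⟩ := Pool.Agent.H47R4.no_chain' C
    refine ⟨X₀, fun d hd X hX => ?_⟩
    rintro ⟨f, hf1, hf2⟩
    have hdr : (0 : ℝ) < d := by exact_mod_cast hd
    apply h (X / d) (by rwa [le_div_iff₀ hdr])
    have hdv : ∀ s, s < 12 → d * (f s / d) = f s := fun s hs =>
      Nat.mul_div_cancel' (bad_isMax hd (hf1 s hs).1).1
    refine ⟨fun s => f s / d, fun s hs => ⟨?_, ?_, (bad_isMax hd (hf1 s hs).1).2⟩, fun s hs => ?_⟩
    · have h1 : ((d * (f s / d) : ℕ) : ℝ) = f s := by rw [hdv s hs]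
      push_cast at h1
      rw [div_le_iff₀ hdr]
      have := (hf1 s hs).2.1
      linarith
    · have h1 : ((d * (f s / d) : ℕ) : ℝ) = f s := by rw [hdv s hs]
      push_cast at h1
      have h2 := (hf1 s hs).2.2
      have h3 : (d : ℝ) * ((f s / d : ℕ) : ℝ) ≤ d * (C * (X / d)) := by
        rw [h1]
        have : (d : ℝ) * (C * (X / d)) = C * X := by field_simp
        rw [this]
        exact h2
      exact le_of_mul_le_mul_left h3 hdr
    · have h1 := hf2 s hs
      rw [← hdv s (by omega), ← hdv (s + 1) hs] at h1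
      have h2 : d * (16 * (f s / d)) ≤ d * (f (s + 1) / d) := by
        calc d * (16 * (f s / d)) = 16 * (d * (f s / d)) := by ring
          _ ≤ _ := h1
      exact Nat.le_of_mul_le_mul_left h2 hd
  · refine squeeze_zero' ?_ ?_ Pool.Agent.H47R4.log_density
    · filter_upwards [eventually_ge_atTop 1] with x hx
      exact div_nonneg (Finset.sum_nonneg fun _ _ => by positivity)
        (Real.log_nonneg (by exact_mod_cast hx))
    · filter_upwards [eventually_ge_atTop 1] with x hx
      have hl : 0 ≤ Real.log (x : ℝ) := Real.log_nonneg (by exact_mod_cast hx)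
      apply div_le_div_of_nonneg_right _ hl
      have hinj : Set.InjOn (fun N => N / d) ((Finset.Icc 1 x).filter (fun N => N ∈ Bad d) : Finset ℕ) := by
        intro a ha b hb hab
        rw [Finset.mem_coe, Finset.mem_filter] at ha hb
        have := congrArg (fun x => x * d) hab
        simp only at this
        rwa [Nat.div_mul_cancel (bad_isMax hd ha.2).1, Nat.div_mul_cancel (bad_isMax hd hb.2).1] at this
      calc ∑ N ∈ (Finset.Icc 1 x).filter (fun N => N ∈ Bad d), (1 : ℝ) / N
          ≤ ∑ N ∈ (Finset.Icc 1 x).filter (fun N => N ∈ Bad d), (1 : ℝ) / ((N / d : ℕ) : ℝ) := by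
            apply Finset.sum_le_sum
            intro N hN
            rw [Finset.mem_filter, Finset.mem_Icc] at hN
            have h1 : 0 < N / d :=
              Nat.div_pos (Nat.le_of_dvd (by omega) (bad_isMax hd hN.2).1) hd
            apply one_div_le_one_div_of_le
            · exact_mod_cast h1
            · exact_mod_cast Nat.div_le_self N d
        _ = ∑ M ∈ ((Finset.Icc 1 x).filter (fun N => N ∈ Bad d)).image (fun N => N / d),
              (1 : ℝ) / M := by rw [Finset.sum_image hinj]
        _ ≤ _ := by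
            apply Finset.sum_le_sum_of_subset_of_nonneg
            · intro M hM
              rw [Finset.mem_image] at hM
              obtain ⟨N, hN, rfl⟩ := hM
              rw [Finset.mem_filter, Finset.mem_Icc] at hN
              rw [Finset.mem_filter, Finset.mem_Icc]
              refine ⟨⟨Nat.div_pos (Nat.le_of_dvd (by omega) (bad_isMax hd hN.2).1) hd,
                (Nat.div_le_self N d).trans hN.1.2⟩, (bad_isMax hd hN.2).2⟩
            · intro _ _ _
              positivity

end Pool.Agent.Results.MP_0e3417_nt.MultiplesLogDensity
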